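import Pool.Agent.Y251.LT.Stm

/-!
# LT-INV: local inverse of a conformal map in logarithmic form
-/

set_option autoImplicit false

open MeasureTheory Complex Metric Set Filter Topology
open scoped Real ComplexConjugate

namespace Pool.Agent.Y273.LT

open Pool.Agent.Y251.LT

theorem inv : S_INV := by
  intro φ hφ hd
  have hφa : AnalyticAt ℂ φ 0 := hφ.analyticAt (ball_mem_nhds 0 one_pos)
  obtain ⟨r, hr⟩ : ∃ r : ℂ → ℂ, r = hφa.hasStrictDerivAt.localInverse _ _ _ hd := ⟨_, rfl⟩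
  have hra : AnalyticAt ℂ r (φ 0) := by
    rw [hr]
    exact hφa.analyticAt_localInverse hd
  have hr0 : r (φ 0) = 0 := by
    rw [hr]
    exact HasStrictFDerivAt.localInverse_apply_image ..
  have hri : ∀ᶠ x in 𝓝 (φ 0), φ (r x) = x := by
    rw [hr]
    exact HasStrictDerivAt.eventually_right_inverse ..
  have hrd : HasDerivAt r (deriv φ 0)⁻¹ (φ 0) := by
    rw [hr]
    exact (HasStrictDerivAt.to_localInverse ..).hasDerivAt
  obtain ⟨v, hv⟩ : ∃ v : ℂ → ℂ, v = fun z => r (φ 0 + z) := ⟨_, rfl⟩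
  have hT : Tendsto (fun z : ℂ => φ 0 + z) (𝓝 0) (𝓝 (φ 0)) := by
    have h1 : Continuous fun z : ℂ => φ 0 + z := by fun_prop
    have h2 := h1.tendsto 0
    rwa [add_zero] at h2
  have hv0 : v 0 = 0 := by
    rw [hv]
    show r (φ 0 + 0) = 0
    rw [add_zero, hr0]
  have hvd : ∀ᶠ z in 𝓝 (0 : ℂ), DifferentiableAt ℂ v z := by
    have h1 : ∀ᶠ x in 𝓝 (φ 0), DifferentiableAt ℂ r x :=
      hra.eventually_analyticAt.mono fun x hx => hx.differentiableAt
    filter_upwards [hT.eventually h1] with z hz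
    rw [hv]
    exact DifferentiableAt.comp z hz (by fun_prop)
  have hvi : ∀ᶠ z in 𝓝 (0 : ℂ), φ (v z) = φ 0 + z := by
    rw [hv]
    exact hT.eventually hri
  have hvdd : HasDerivAt v (deriv φ 0)⁻¹ 0 := by
    rw [hv]
    have h1 : HasDerivAt r (deriv φ 0)⁻¹ (φ 0 + 0) := by
      rw [add_zero]
      exact hrd
    have h2 := h1.comp_const_add (φ 0) 0
    exact h2
  obtain ⟨W, hW⟩ : ∃ W : ℂ → ℂ, W = dslope v 0 := ⟨_, rfl⟩
  have hvW : ∀ z, z * W z = v z := by
    intro z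
    have h1 := sub_smul_dslope v 0 z
    rw [sub_zero, hv0, sub_zero, smul_eq_mul] at h1
    rw [hW]
    exact h1
  have hW0 : W 0 ≠ 0 := by
    rw [hW, dslope_same, hvdd.deriv]
    exact inv_ne_zero hd
  obtain ⟨δ, hδ, hb⟩ := Metric.eventually_nhds_iff_ball.1 hvd
  have hWd : DifferentiableOn ℂ W (ball 0 δ) := by
    rw [hW, Complex.differentiableOn_dslope (ball_mem_nhds 0 hδ)]
    exact fun z hz => (hb z hz).differentiableWithinAt
  have hWc : ContinuousAt W 0 := (hWd.differentiableAt (ball_mem_nhds 0 hδ)).continuousAt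
  have hWs : ∀ᶠ z in 𝓝 (0 : ℂ), W z / W 0 ∈ ball (1 : ℂ) (1 / 2) := by
    have h1 : Tendsto (fun z => W z / W 0) (𝓝 0) (𝓝 (W 0 / W 0)) := hWc.tendsto.div_const _
    rw [div_self hW0] at h1
    exact h1.eventually (ball_mem_nhds _ (by norm_num))
  have hvs : ∀ᶠ z in 𝓝 (0 : ℂ), ‖v z‖ < 1 := by
    have h1 : ContinuousAt (fun z => ‖v z‖) 0 := hvdd.continuousAt.norm
    refine h1.eventually_lt_const ?_
    show ‖v 0‖ < 1
    rw [hv0, norm_zero]
    exact one_pos
  obtain ⟨ρ, hρ, hρb⟩ := Metric.eventually_nhds_iff_ball.1 (hvi.and (hWs.and hvs))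
  have hsl : ∀ w ∈ ball (1 : ℂ) (1 / 2), w ∈ slitPlane := by
    intro w hw
    rw [mem_ball, dist_eq_norm] at hw
    left
    have h1 := Complex.abs_re_le_norm (w - 1)
    rw [sub_re, one_re] at h1
    have h2 := abs_le.1 (h1.trans hw.le)
    linarith [h2.1]
  refine ⟨min δ ρ, fun z => Complex.log (W z / W 0) + Complex.log (W 0), lt_min hδ hρ, ?_, ?_⟩
  · intro z hz
    have hzδ : z ∈ ball (0 : ℂ) δ := ball_subset_ball (min_le_left _ _) hz
    have hzρ : z ∈ ball (0 : ℂ) ρ := ball_subset_ball (min_le_right _ _) hz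
    have h1 : DifferentiableAt ℂ W z := hWd.differentiableAt (isOpen_ball.mem_nhds hzδ)
    have h2 : DifferentiableAt ℂ (fun z => W z / W 0) z := h1.div_const _
    exact ((h2.clog (hsl _ (hρb z hzρ).2.1)).add_const _).differentiableWithinAt
  · intro z hz
    have hzρ : z ∈ ball (0 : ℂ) ρ := ball_subset_ball (min_le_right _ _) hz
    obtain ⟨h1, h2, h3⟩ := hρb z hzρ
    have h4 : W z / W 0 ≠ 0 := slitPlane_ne_zero (hsl _ h2)
    have h5 : Complex.exp (Complex.log (W z / W 0) + Complex.log (W 0)) = W z := by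
      rw [Complex.exp_add, Complex.exp_log h4, Complex.exp_log hW0, div_mul_cancel₀ _ hW0]
    show ‖z * Complex.exp (Complex.log (W z / W 0) + Complex.log (W 0))‖ < 1 ∧
      φ (z * Complex.exp (Complex.log (W z / W 0) + Complex.log (W 0))) = φ 0 + z
    rw [h5, hvW]
    exact ⟨h3, h1⟩

end Pool.Agent.Y273.LT
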